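import Pool.Agent.helper5.LDH.Spec

/-!
# Project LDH (MP_4467b5_nt), row DTC: detection of zeros
-/

set_option autoImplicit false

open Complex MeasureTheory

namespace Pool.Agent.LDH

open Pool.Agent.helper84.DM Pool.Agent.helper78.ED Pool.Agent.DH

/-- the mollifier is at most its length -/
theorem DTC_mol (X : ℕ) (ρ : ℂ) (h : 0 ≤ ρ.re) :
    ‖∑ m ∈ Finset.Icc 1 X, ((ArithmeticFunction.moebius m : ℤ) : ℂ) * (m : ℂ) ^ (-ρ)‖ ≤ X := by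
  refine (norm_sum_le _ _).trans ?_
  have h1 : ∀ m ∈ Finset.Icc 1 X,
      ‖((ArithmeticFunction.moebius m : ℤ) : ℂ) * (m : ℂ) ^ (-ρ)‖ ≤ 1 := by
    intro m hm
    have hm1 : 1 ≤ m := (Finset.mem_Icc.1 hm).1
    rw [norm_mul]
    have e1 : ‖((ArithmeticFunction.moebius m : ℤ) : ℂ)‖ ≤ 1 := by
      rw [Complex.norm_intCast]
      have := ArithmeticFunction.abs_moebius_le_one (n := m)
      exact_mod_cast this
    have e2 : ‖(m : ℂ) ^ (-ρ)‖ ≤ 1 := by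
      rw [Complex.norm_natCast_cpow_of_pos (by omega)]
      have : (1 : ℝ) ≤ m := by exact_mod_cast hm1
      rw [Complex.neg_re]
      exact Real.rpow_le_one_of_one_le_of_nonpos this (by linarith)
    calc ‖((ArithmeticFunction.moebius m : ℤ) : ℂ)‖ * ‖(m : ℂ) ^ (-ρ)‖ ≤ 1 * 1 :=
          mul_le_mul e1 e2 (norm_nonneg _) zero_le_one
      _ = 1 := one_mul 1
  calc ∑ m ∈ Finset.Icc 1 X, ‖((ArithmeticFunction.moebius m : ℤ) : ℂ) * (m : ℂ) ^ (-ρ)‖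
      ≤ ∑ _m ∈ Finset.Icc 1 X, (1 : ℝ) := Finset.sum_le_sum h1
    _ = X := by simp

theorem DTC (hEM : EM_stmt) (hMOL : MOL_stmt) : DTC_stmt := by
  obtain ⟨C, hC, hE⟩ := hEM
  intro δ hδ hδ8
  refine ⟨max 1 ((8 * C) ^ 4), ?_⟩
  intro T hT X Y J hX hXT hXY hJ1 hJ2 ρ hρ hre him1 him2
  have hT1 : 1 ≤ T := (le_max_left _ _).trans hT
  have hT0 : 0 < T := by linarith
  have hTC : (8 * C) ^ 4 ≤ T := (le_max_right _ _).trans hT
  have hre1 : ρ.re < 1 := by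
    by_contra hcon
    push Not at hcon
    exact riemannZeta_ne_zero_of_one_le_re hcon hρ
  have hY : 1 ≤ Y := hX.trans hXY
  set N : ℕ := 2 ^ J * Y with hN
  have hNc : (N : ℝ) = (2 : ℝ) ^ J * Y := by rw [hN]; push_cast; ring
  have hNT : T ^ 2 ≤ (N : ℝ) := by rw [hNc]; exact hJ1
  have hNT2 : (N : ℝ) ≤ 2 * T ^ 2 := by rw [hNc]; exact hJ2
  have hYN : Y ≤ N := by rw [hN]; exact Nat.le_mul_of_pos_left _ (by positivity)
  have hN1 : 1 ≤ N := hY.trans hYN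
  have hN0 : (0 : ℝ) < N := by exact_mod_cast hN1
  have hN1r : (1 : ℝ) ≤ N := by exact_mod_cast hN1
  -- the estimate of the long sum
  have hP := hE ρ N hρ (by linarith) hre1.le (by linarith) hN1
  have b1 : (N : ℝ) ^ (1 - ρ.re) ≤ 2 * T ^ (1 / 2 : ℝ) := by
    calc (N : ℝ) ^ (1 - ρ.re) ≤ (N : ℝ) ^ (1 / 4 : ℝ) :=
          Real.rpow_le_rpow_of_exponent_le hN1r (by linarith)
      _ ≤ (2 * T ^ 2) ^ (1 / 4 : ℝ) := Real.rpow_le_rpow hN0.le hNT2 (by norm_num)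
      _ = 2 ^ (1 / 4 : ℝ) * T ^ (1 / 2 : ℝ) := by
          rw [Real.mul_rpow (by norm_num) (by positivity), ← Real.rpow_natCast T 2,
            ← Real.rpow_mul hT0.le]
          norm_num
      _ ≤ 2 * T ^ (1 / 2 : ℝ) := by
          have : (2 : ℝ) ^ (1 / 4 : ℝ) ≤ 2 ^ (1 : ℝ) :=
            Real.rpow_le_rpow_of_exponent_le (by norm_num) (by norm_num)
          rw [Real.rpow_one] at this
          exact mul_le_mul_of_nonneg_right this (by positivity)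
  have b2 : (N : ℝ) ^ (-ρ.re) ≤ T ^ (-(3 / 2) : ℝ) := by
    calc (N : ℝ) ^ (-ρ.re) ≤ (N : ℝ) ^ (-(3 / 4) : ℝ) :=
          Real.rpow_le_rpow_of_exponent_le hN1r (by linarith)
      _ ≤ (T ^ 2) ^ (-(3 / 4) : ℝ) :=
          Real.rpow_le_rpow_of_nonpos (by positivity) hNT (by norm_num)
      _ = T ^ (-(3 / 2) : ℝ) := by
          rw [← Real.rpow_natCast T 2, ← Real.rpow_mul hT0.le]
          norm_num
  have him0 : 0 < ρ.im := by linarith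
  have b3 : (N : ℝ) ^ (1 - ρ.re) / ρ.im ≤ 2 * T ^ (-(1 / 2) : ℝ) := by
    rw [div_le_iff₀ him0]
    calc (N : ℝ) ^ (1 - ρ.re) ≤ 2 * T ^ (1 / 2 : ℝ) := b1
      _ = 2 * T ^ (-(1 / 2) : ℝ) * T := by
          have : T ^ (1 / 2 : ℝ) = T ^ (-(1 / 2) : ℝ) * T := by
            nth_rewrite 3 [← Real.rpow_one T]
            rw [← Real.rpow_add hT0]
            norm_num
          rw [this]; ring
      _ ≤ 2 * T ^ (-(1 / 2) : ℝ) * ρ.im := by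
          exact mul_le_mul_of_nonneg_left him1 (by positivity)
  have b4 : ρ.im * (N : ℝ) ^ (-ρ.re) ≤ 2 * T ^ (-(1 / 2) : ℝ) := by
    calc ρ.im * (N : ℝ) ^ (-ρ.re) ≤ (2 * T) * T ^ (-(3 / 2) : ℝ) :=
          mul_le_mul him2 b2 (by positivity) (by positivity)
      _ = 2 * T ^ (-(1 / 2) : ℝ) := by
          have : T * T ^ (-(3 / 2) : ℝ) = T ^ (-(1 / 2) : ℝ) := by
            nth_rewrite 1 [← Real.rpow_one T]
            rw [← Real.rpow_add hT0]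
            norm_num
          rw [← this]; ring
  have hPN : ‖∑ n ∈ Finset.Icc 1 N, (n : ℂ) ^ (-ρ)‖ ≤ C * (4 * T ^ (-(1 / 2) : ℝ)) := by
    refine hP.trans (mul_le_mul_of_nonneg_left ?_ hC.le)
    linarith
  have hsmall : T ^ δ * (C * (4 * T ^ (-(1 / 2) : ℝ))) ≤ 1 / 2 := by
    have c1 : T ^ δ * T ^ (-(1 / 2) : ℝ) ≤ T ^ (-(1 / 4) : ℝ) := by
      rw [← Real.rpow_add hT0]
      exact Real.rpow_le_rpow_of_exponent_le hT1 (by linarith)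
    have c2 : 8 * C * T ^ (-(1 / 4) : ℝ) ≤ 1 := by
      have : 8 * C ≤ T ^ (1 / 4 : ℝ) := by
        calc 8 * C = ((8 * C) ^ 4) ^ (1 / 4 : ℝ) := by
              rw [← Real.rpow_natCast (8 * C) 4, ← Real.rpow_mul (by positivity)]
              norm_num
          _ ≤ T ^ (1 / 4 : ℝ) := Real.rpow_le_rpow (by positivity) hTC (by norm_num)
      calc 8 * C * T ^ (-(1 / 4) : ℝ) ≤ T ^ (1 / 4 : ℝ) * T ^ (-(1 / 4) : ℝ) :=
            mul_le_mul_of_nonneg_right this (by positivity)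
        _ = 1 := by rw [← Real.rpow_add hT0]; norm_num
    have c3 : 0 ≤ T ^ δ * T ^ (-(1 / 2) : ℝ) := by positivity
    nlinarith [mul_le_mul_of_nonneg_left c1 hC.le]
  -- the identity
  obtain ⟨-, hid⟩ := hMOL X Y hX hXY
  have hid := hid ρ
  set M : ℂ := ∑ m ∈ Finset.Icc 1 X, ((ArithmeticFunction.moebius m : ℤ) : ℂ) * (m : ℂ) ^ (-ρ)
    with hM
  set S : ℂ := ∑ k ∈ Finset.Ioc X (X * Y), cY X Y k * (k : ℂ) ^ (-ρ) with hS
  set R : ℂ := ∑ n ∈ Finset.Ioc Y N, (n : ℂ) ^ (-ρ) with hR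
  have hsplit : (∑ n ∈ Finset.Icc 1 Y, (n : ℂ) ^ (-ρ)) + R =
      ∑ n ∈ Finset.Icc 1 N, (n : ℂ) ^ (-ρ) := by
    rw [hR]
    have e1 : Finset.Icc 1 N = Finset.Icc 1 Y ∪ Finset.Ioc Y N := by
      ext x; simp only [Finset.mem_union, Finset.mem_Icc, Finset.mem_Ioc]; omega
    rw [e1, Finset.sum_union]
    rw [Finset.disjoint_left]
    intro x hx hx'
    simp only [Finset.mem_Icc, Finset.mem_Ioc] at hx hx'
    omega
  have hMb : ‖M‖ ≤ T ^ δ := (DTC_mol X ρ (by linarith)).trans hXT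
  have hPY : ‖∑ n ∈ Finset.Icc 1 Y, (n : ℂ) ^ (-ρ)‖ ≤ C * (4 * T ^ (-(1 / 2) : ℝ)) + ‖R‖ := by
    have : (∑ n ∈ Finset.Icc 1 Y, (n : ℂ) ^ (-ρ)) =
        (∑ n ∈ Finset.Icc 1 N, (n : ℂ) ^ (-ρ)) - R := by rw [← hsplit]; ring
    rw [this]
    exact (norm_sub_le _ _).trans (by linarith)
  have hone : (1 : ℝ) ≤ ‖M‖ * ‖∑ n ∈ Finset.Icc 1 Y, (n : ℂ) ^ (-ρ)‖ + ‖S‖ := by
    have h1 : (1 : ℂ) = M * (∑ n ∈ Finset.Icc 1 Y, (n : ℂ) ^ (-ρ)) - S := by rw [hid]; ring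
    calc (1 : ℝ) = ‖(1 : ℂ)‖ := by simp
      _ = ‖M * (∑ n ∈ Finset.Icc 1 Y, (n : ℂ) ^ (-ρ)) - S‖ := by rw [← h1]
      _ ≤ ‖M * (∑ n ∈ Finset.Icc 1 Y, (n : ℂ) ^ (-ρ))‖ + ‖S‖ := norm_sub_le _ _
      _ = ‖M‖ * ‖∑ n ∈ Finset.Icc 1 Y, (n : ℂ) ^ (-ρ)‖ + ‖S‖ := by rw [norm_mul]
  have hfin : ‖M‖ * ‖∑ n ∈ Finset.Icc 1 Y, (n : ℂ) ^ (-ρ)‖ ≤
      T ^ δ * (C * (4 * T ^ (-(1 / 2) : ℝ)) + ‖R‖) :=
    mul_le_mul hMb hPY (norm_nonneg _) (by positivity)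
  have : T ^ δ * (C * (4 * T ^ (-(1 / 2) : ℝ)) + ‖R‖) =
      T ^ δ * (C * (4 * T ^ (-(1 / 2) : ℝ))) + T ^ δ * ‖R‖ := by ring
  linarith

end Pool.Agent.LDH
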